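import Pool.Agent.H466.HD.SB

/-!
# Upper bound for the backward heat flow on the whole line, around a regular point
-/

set_option autoImplicit false

namespace Pool.Agent.H122.HD

open Complex MeasureTheory Set Filter Topology
open scoped ComplexConjugate
open Pool.Agent.H466.HF Pool.Agent.H466.LD Pool.Agent.H466.HP Pool.Agent.H466.HN
open Pool.Agent.H466.HD
open Pool.Agent.H862.VK (Yz)

/-- absorbing a linear term in a Gaussian -/
lemma lin_gauss {μ p v : ℝ} (hμ : 0 < μ) :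
    p * v ≤ v ^ 2 / (8 * μ) + 2 * p ^ 2 * μ := by
  have h1 : v ^ 2 / (8 * μ) + 2 * p ^ 2 * μ - p * v = (v - 4 * μ * p) ^ 2 / (8 * μ) := by
    field_simp
    ring
  have h2 : 0 ≤ (v - 4 * μ * p) ^ 2 / (8 * μ) := by positivity
  linarith

theorem uh2 (h : S_BACK) : S_UH2 := by
  obtain ⟨A, K, μ0, Q, T00, hK46, hμ0, hT00, -, hdata⟩ := far_data
  have hK0 : 0 < K := by linarith
  obtain ⟨C0, hC0⟩ : ∃ C0 : ℝ, C0 = 12 * K + 3 + μ0 / 2 := ⟨_, rfl⟩
  have hC0p : 0 < C0 := by rw [hC0]; positivity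
  set δ2 : ℝ := min (1 / 60) (1 / (16 * C0)) with hδ2
  have hδ2p : 0 < δ2 := by
    rw [hδ2]
    refine lt_min (by norm_num) ?_
    positivity
  have hδa : δ2 ≤ 1 / 60 := min_le_left _ _
  have hδb : δ2 ≤ 1 / (16 * C0) := min_le_right _ _
  refine ⟨δ2, 2 * C0, hδ2p, by positivity, ?_⟩
  intro η hη
  refine ⟨min 1 (η / 400), lt_min one_pos (by positivity), ?_⟩
  intro κ hκ0 hκκ A1 hA1
  have hκ1 : κ ≤ 1 := hκκ.trans (min_le_left _ _)
  have hκη : κ ≤ η / 400 := hκκ.trans (min_le_right _ _)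
  refine ⟨max A1 (2 * (1 + 2 * A1) / η), max T00 (Real.exp A1), hA1.trans (le_max_left _ _),
    hT00.trans (le_max_left _ _), ?_⟩
  intro T t μ hT htT ht2 R hμ hA hδ y
  have hTT : T00 ≤ T := (le_max_left _ _).trans hT
  have hTe : Real.exp A1 ≤ T := (le_max_right _ _).trans hT
  have hT10 : 10 ≤ T := hT00.trans hTT
  set L := Real.log T with hL
  have hL1 : A1 ≤ L := by
    rw [hL, Real.le_log_iff_exp_le (by linarith)]
    exact hTe
  have hLp : 0 < L := by linarith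
  have hL1' : 1 ≤ L := by linarith
  have hAA1 : A1 ≤ μ * L ^ 2 := (le_max_left _ _).trans hA
  have hAη : 2 * (1 + 2 * A1) ≤ η * (μ * L ^ 2) := by
    have := (le_max_right A1 (2 * (1 + 2 * A1) / η)).trans hA
    rw [div_le_iff₀ hη] at this
    linarith
  obtain ⟨-, D⟩ := hdata T t hTT htT ht2
  obtain ⟨Δ, hΔ⟩ : ∃ Δ : ℝ, Δ = μ * L := ⟨_, rfl⟩
  obtain ⟨a, ha⟩ : ∃ a : ℝ, a = μ * L ^ 2 := ⟨_, rfl⟩
  have hΔL : Δ * L = a := by rw [hΔ, ha]; ring
  have hΔp : 0 < Δ := by rw [hΔ]; positivity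
  have hap : 0 < a := by rw [ha]; positivity
  have hΔ1 : Δ ≤ δ2 := by rw [hΔ]; exact hδ
  have hΔ60 : 60 * Δ ≤ 1 := by linarith
  rw [← ha] at hAA1 hAη
  -- the reference size
  obtain ⟨Γ, hΓ⟩ : ∃ Γ : ℝ, Γ = Gm T t μ := ⟨_, rfl⟩
  have hΓ' : Γ = ‖LL gk 0 ((Δ : ℂ) + (t : ℂ) * I)‖ * Real.exp (-(L / 2 * Δ)) := by
    rw [hΓ, Gm, ← hL, ← hΔ, ← ha, ← hΔL]
    congr 3
    ring
  have hbase : ‖LL gk 0 ((Δ : ℂ) + (t : ℂ) * I)‖ = Γ * Real.exp (L / 2 * Δ) := by
    rw [hΓ', mul_assoc, ← Real.exp_add, neg_add_cancel, Real.exp_zero, mul_one]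
  have hy0X : A1 / L ≤ Δ := by
    rw [div_le_iff₀ hLp, hΔL]
    exact hAA1
  have hy01 : A1 / L ≤ 1 := by rw [div_le_one hLp]; exact hL1
  have hM1 : 1 ≤ 1 / κ := by rw [le_div_iff₀ hκ0]; linarith
  have hlow := base_low (X1 := Δ) hT10 (by linarith) hy01 hM1 hκ0 R D hy0X (by linarith)
  rw [← hL, ← hΓ'] at hlow
  have hΓtp : 0 < ‖gz ((t : ℂ) * I)‖ := D.Γpos
  have hΓp : 0 < Γ := lt_of_lt_of_le (by positivity) hlow
  have hΓt : ‖gz ((t : ℂ) * I)‖ ≤ Γ * Real.exp (10 * K + 3 * (κ * L)) := by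
    have h3 := mul_le_mul_of_nonneg_right hlow (Real.exp_pos (10 * K + 3 * (κ * L))).le
    rw [mul_assoc, ← Real.exp_add, neg_add_cancel, Real.exp_zero, mul_one] at h3
    exact h3
  have hS := sqrt_pos' hμ
  obtain ⟨s, hs⟩ : ∃ s : ℝ, s = y - t := ⟨_, rfl⟩
  have h16 : 16 * C0 * (μ * L) ≤ 1 := by
    have h1 := hΔ1.trans hδb
    rw [le_div_iff₀ (by positivity)] at h1
    rw [← hΔ]
    linarith
  set Qe : ℝ := κ * a + 2 * A1 + 3 * κ * L * |s| + 18 * (κ ^ 2 * a) + 2 * C0 * L * s ^ 2 with hQe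
  have hbound : ∀ v : ℝ, ‖LL gk 0 ((y : ℂ) * I + v * I)‖ * Real.exp (-v ^ 2 / (4 * μ)) ≤
      Γ * Real.exp Qe * Real.exp (-v ^ 2 / (8 * μ)) := by
    intro v
    have hv0 := abs_nonneg v
    have hs0 := abs_nonneg s
    have hvs : |v| ^ 2 = v ^ 2 := sq_abs v
    have ev : (y : ℂ) * I + v * I =
        ((0 : ℝ) : ℂ) + ((t + (s + v) : ℝ) : ℂ) * I := by rw [hs]; push_cast; ring
    have hvt : |s + v| ≤ |s| + |v| := abs_add_le _ _
    have esplit : -v ^ 2 / (4 * μ) = -(v ^ 2 / (8 * μ)) + -v ^ 2 / (8 * μ) := by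
      field_simp
      ring
    have h6 : 0 ≤ κ * a := by positivity
    have h8' : 0 ≤ 18 * (κ ^ 2 * a) := by positivity
    have h9 : 0 ≤ 2 * C0 * L * s ^ 2 := by positivity
    have h10 : 0 ≤ 3 * κ * L * |s| := by positivity
    rw [ev]
    rcases le_or_gt |s + v| 2 with hv | hv
    · have h1 := ustar mono (X1 := Δ) hT10 (by linarith) hy01 hM1 hκ0 hκ1
        (by rw [mul_one_div, div_self hκ0.ne']) R D hy0X (by linarith) (le_refl (0 : ℝ))
        (v := s + v) (by linarith)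
      rw [← hL, hbase, mul_assoc, ← Real.exp_add] at h1
      refine (mul_le_mul_of_nonneg_right h1 (Real.exp_pos _).le).trans ?_
      rw [mul_assoc Γ, mul_assoc Γ, ← Real.exp_add, ← Real.exp_add]
      apply mul_le_mul_of_nonneg_left _ hΓp.le
      apply Real.exp_le_exp.mpr
      have h2 : 3 * κ * L * |s + v| ≤ 3 * κ * L * (|s| + |v|) :=
        mul_le_mul_of_nonneg_left hvt (by positivity)
      have h3 := lin_gauss (μ := μ) (p := 3 * κ * L) (v := |v|) hμ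
      rw [hvs] at h3
      have h4 : 2 * (3 * κ * L) ^ 2 * μ = 18 * (κ ^ 2 * a) := by rw [ha]; ring
      have h5 : κ * L * (0 + Δ) = κ * a := by rw [← hΔL]; ring
      rw [esplit, hQe, h5]
      rw [h4] at h3
      linarith only [h2, h3, h9]
    · have h1 := D.up (((0 : ℝ) : ℂ) + ((t + (s + v) : ℝ) : ℂ) * I)
      have e1 : (((0 : ℝ) : ℂ) + ((t + (s + v) : ℝ) : ℂ) * I).re = 0 := by simp
      have e2 : (((0 : ℝ) : ℂ) + ((t + (s + v) : ℝ) : ℂ) * I).im - t = s + v := by simp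
      rw [e1, e2, abs_zero] at h1
      have h2 := h1.trans (mul_le_mul_of_nonneg_right hΓt (Real.exp_pos _).le)
      refine (mul_le_mul_of_nonneg_right h2 (Real.exp_pos _).le).trans ?_
      rw [mul_assoc Γ, mul_assoc Γ, mul_assoc Γ, ← Real.exp_add, ← Real.exp_add, ← Real.exp_add]
      apply mul_le_mul_of_nonneg_left _ hΓp.le
      apply Real.exp_le_exp.mpr
      have h3 : (s + v) ^ 2 ≤ 2 * s ^ 2 + 2 * v ^ 2 := by
        have e : 2 * s ^ 2 + 2 * v ^ 2 - (s + v) ^ 2 = (s - v) ^ 2 := by ring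
        have e' := sq_nonneg (s - v)
        rw [← e] at e'
        exact sub_nonneg.1 e'
      have hw : 1 ≤ (s + v) ^ 2 := by
        rw [← sq_abs (s + v)]
        exact one_le_pow₀ (by linarith only [hv])
      have h4 : 10 * K + 3 * (κ * L) + (L / 2 * (0 + μ0) + K * (1 + 0 ^ 2 + (s + v) ^ 2)) ≤
          C0 * L * (s + v) ^ 2 := by
        have b3 : L ≤ L * (s + v) ^ 2 := le_mul_of_one_le_right hLp.le hw
        have b1 : 1 ≤ L * (s + v) ^ 2 := hL1'.trans b3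
        have b2 : (s + v) ^ 2 ≤ L * (s + v) ^ 2 := le_mul_of_one_le_left (sq_nonneg _) hL1'
        have b4 : 11 * K * 1 ≤ 11 * K * (L * (s + v) ^ 2) :=
          mul_le_mul_of_nonneg_left b1 (by positivity)
        have b5 : K * (s + v) ^ 2 ≤ K * (L * (s + v) ^ 2) := mul_le_mul_of_nonneg_left b2 hK0.le
        have b6 : μ0 / 2 * L ≤ μ0 / 2 * (L * (s + v) ^ 2) :=
          mul_le_mul_of_nonneg_left b3 (by positivity)
        have b7 : κ * L ≤ 1 * (L * (s + v) ^ 2) :=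
          mul_le_mul hκ1 b3 hLp.le (by norm_num)
        rw [hC0]
        linarith only [b1, b2, b3, b4, b5, b6, b7]
      have h5 : C0 * L * (s + v) ^ 2 ≤ 2 * C0 * L * s ^ 2 + v ^ 2 / (8 * μ) := by
        have c1 : C0 * L * (s + v) ^ 2 ≤ C0 * L * (2 * s ^ 2 + 2 * v ^ 2) :=
          mul_le_mul_of_nonneg_left h3 (by positivity)
        have c2 : 2 * C0 * L * v ^ 2 ≤ v ^ 2 / (8 * μ) := by
          rw [le_div_iff₀ (by positivity)]
          have c3 : 2 * C0 * L * v ^ 2 * (8 * μ) = (16 * C0 * (μ * L)) * v ^ 2 := by ring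
          rw [c3]
          have := mul_le_mul_of_nonneg_right h16 (sq_nonneg v)
          linarith only [this]
        linarith only [c1, c2]
      rw [esplit, hQe]
      linarith only [h4, h5, h6, h8', h9, h10, hA1]
  have i8 : Integrable (fun v : ℝ => Real.exp (-v ^ 2 / (8 * μ))) :=
    ga_integrable (k := 8 * μ) (by positivity)
  have v8 : ∫ v : ℝ, Real.exp (-v ^ 2 / (8 * μ)) ≤ 2 * Real.sqrt (Real.pi * (4 * μ)) := by
    have h1 := ga_integral (k := 8 * μ) (by positivity)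
    unfold ga at h1
    rw [h1, show Real.pi * (8 * μ) = 2 * (Real.pi * (4 * μ)) by ring,
      Real.sqrt_mul (by norm_num)]
    apply mul_le_mul_of_nonneg_right _ hS.le
    rw [Real.sqrt_le_left (by norm_num)]
    norm_num
  have h1 := h μ hμ ((y : ℂ) * I) 0
  have ex : (y : ℂ) * I + ((0 : ℝ) : ℂ) = (y : ℂ) * I := by
    push_cast; ring
  have ex2 : Real.exp (-((0 : ℝ) ^ 2 / (4 * μ))) = 1 := by
    rw [← Real.exp_zero]
    congr 1
    ring
  rw [ex, ex2, mul_one] at h1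
  have h2 : ∫ v : ℝ, ‖LL gk 0 ((y : ℂ) * I + v * I)‖ * Real.exp (-v ^ 2 / (4 * μ)) ≤
      ∫ v : ℝ, Γ * Real.exp Qe * Real.exp (-v ^ 2 / (8 * μ)) :=
    integral_mono_of_nonneg (Eventually.of_forall fun v => by positivity) (i8.const_mul _)
      (Eventually.of_forall hbound)
  rw [integral_const_mul] at h2
  have h3 : Real.sqrt (Real.pi * (4 * μ)) * ‖LL gk (-μ) ((y : ℂ) * I)‖ ≤
      Γ * Real.exp Qe * (2 * Real.sqrt (Real.pi * (4 * μ))) :=
    h1.trans (h2.trans (mul_le_mul_of_nonneg_left v8 (by positivity)))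
  have h4 : ‖LL gk (-μ) ((y : ℂ) * I)‖ ≤ 2 * Γ * Real.exp Qe := by
    have e6 : Γ * Real.exp Qe * (2 * Real.sqrt (Real.pi * (4 * μ))) =
        Real.sqrt (Real.pi * (4 * μ)) * (2 * Γ * Real.exp Qe) := by ring
    rw [e6] at h3
    exact le_of_mul_le_mul_left h3 hS
  rw [← hΓ, ← ha, ← hs]
  refine h4.trans ?_
  have h6 : 2 * Γ * Real.exp Qe ≤ Γ * Real.exp (1 + Qe) := by
    have h7 : (2 : ℝ) ≤ Real.exp 1 := by linarith [Real.add_one_le_exp (1 : ℝ)]
    rw [Real.exp_add 1]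
    have h8' : 0 ≤ Γ * Real.exp Qe := by positivity
    have h9 := mul_le_mul_of_nonneg_left h7 h8'
    linarith
  refine h6.trans (mul_le_mul_of_nonneg_left (Real.exp_le_exp.mpr ?_) hΓp.le)
  rw [hQe]
  have g2 : 18 * (κ ^ 2 * a) ≤ 18 * (κ * a) := by
    have : κ ^ 2 * a ≤ κ * a := by
      apply mul_le_mul_of_nonneg_right _ hap.le
      rw [sq]
      exact mul_le_of_le_one_left hκ0.le hκ1
    linarith only [this]
  have g3 : κ * a ≤ η / 400 * a := mul_le_mul_of_nonneg_right hκη hap.le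
  have hLs : 0 ≤ L * |s| := by positivity
  have g4 : κ * (L * |s|) ≤ η / 400 * (L * |s|) := mul_le_mul_of_nonneg_right hκη hLs
  have g6 : 0 ≤ η * (L * |s|) := by positivity
  have g7 : 0 ≤ η * a := by positivity
  linarith only [hAη, g2, g3, g4, g6, g7]

end Pool.Agent.H122.HD
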